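import Pool.Agent.Helper26.AL.GoalsA

/-!
# Project AL (MP_af6c86_pr), packet INV0: invariance under bijections
-/

set_option autoImplicit false

namespace Pool.Agent.Helper96.AL

open Finset Pool.Agent.Helper26.AF Pool.Agent.Helper26.AL

section

variable {V W : Type} (e : W ≃ V) (G : SimpleGraph V)

/-- the isomorphism -/
def ph : G.comap e ≃g G := SimpleGraph.Iso.comap e G

theorem ph_apply (w : W) : ph e G w = e w := rfl

theorem isComp_comap (Q : Finset W) : IsComp (G.comap e) Q ↔ IsComp G (Q.map e.toEmbedding) := by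
  constructor
  · rintro ⟨c, hc⟩
    refine ⟨c.map (ph e G).toHom, ?_⟩
    induction c using SimpleGraph.ConnectedComponent.ind with
    | _ w =>
      ext v
      obtain ⟨x, rfl⟩ := e.surjective v
      have h1 : x ∈ (Q : Set W) ↔ (G.comap e).Reachable x w := by
        rw [← hc, SimpleGraph.ConnectedComponent.mem_supp_iff, SimpleGraph.ConnectedComponent.eq]
      have h2 : G.Reachable (e x) (e w) ↔ (G.comap e).Reachable x w :=
        SimpleGraph.Iso.reachable_iff (φ := ph e G)
      rw [SimpleGraph.ConnectedComponent.mem_supp_iff, SimpleGraph.ConnectedComponent.map_mk,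
        SimpleGraph.ConnectedComponent.eq]
      change G.Reachable (e x) (e w) ↔ _
      rw [h2, ← h1]
      simp
  · rintro ⟨c, hc⟩
    refine ⟨c.map (ph e G).symm.toHom, ?_⟩
    induction c using SimpleGraph.ConnectedComponent.ind with
    | _ v =>
      obtain ⟨w, rfl⟩ := e.surjective v
      ext x
      have h1 : e x ∈ ((Q.map e.toEmbedding : Finset V) : Set V) ↔ G.Reachable (e x) (e w) := by
        rw [← hc, SimpleGraph.ConnectedComponent.mem_supp_iff, SimpleGraph.ConnectedComponent.eq]
      have h2 : G.Reachable (e x) (e w) ↔ (G.comap e).Reachable x w :=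
        SimpleGraph.Iso.reachable_iff (φ := ph e G)
      have h3 : (ph e G).symm.toHom (e w) = w := (ph e G).symm_apply_apply w
      rw [SimpleGraph.ConnectedComponent.mem_supp_iff, SimpleGraph.ConnectedComponent.map_mk,
        SimpleGraph.ConnectedComponent.eq, h3, ← h2, ← h1]
      simp

/-- the bijection of unordered pairs -/
def sy : Sym2 W ≃ Sym2 V where
  toFun := Sym2.map e
  invFun := Sym2.map e.symm
  left_inv x := by
    rw [Sym2.map_map, Equiv.symm_comp_self, Sym2.map_id, id]
  right_inv x := by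
    rw [Sym2.map_map, Equiv.self_comp_symm, Sym2.map_id, id]

theorem mem_edge (x : Sym2 W) : x ∈ (G.comap e).edgeSet ↔ sy e x ∈ G.edgeSet := by
  induction x with
  | _ a b => rfl

theorem eIn_comap (Q : Finset W) : eIn (G.comap e) Q = eIn G (Q.map e.toEmbedding) := by
  unfold eIn
  refine Nat.card_congr (Equiv.subtypeEquiv (sy e) fun x => ?_)
  rw [mem_edge]
  refine and_congr_right fun _ => ?_
  change _ ↔ ∀ v ∈ Sym2.map e x, v ∈ Q.map e.toEmbedding
  constructor
  · intro h v hv
    obtain ⟨w, hw, rfl⟩ := Sym2.mem_map.1 hv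
    exact mem_map_of_mem _ (h w hw)
  · intro h w hw
    have := h (e w) (Sym2.mem_map.2 ⟨w, hw, rfl⟩)
    rw [mem_map] at this
    obtain ⟨w', hw', he⟩ := this
    have : w' = w := e.injective he
    rw [← this]
    exact hw'

theorem exists_map (Q : Finset V) : ∃ Q' : Finset W, Q'.map e.toEmbedding = Q := by
  refine ⟨Q.map e.symm.toEmbedding, ?_⟩
  rw [map_map]
  have : e.symm.toEmbedding.trans e.toEmbedding = Function.Embedding.refl V := by
    ext x
    simp
  rw [this, map_refl]

theorem map_comap_equiv : (G.comap e).map e.toEmbedding = G := by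
  ext x y
  obtain ⟨a, rfl⟩ := e.surjective x
  obtain ⟨b, rfl⟩ := e.surjective y
  rw [SimpleGraph.map_adj]
  constructor
  · rintro ⟨u, v, h, hu, hv⟩
    rw [← hu, ← hv]
    exact h
  · intro h
    exact ⟨a, b, h, rfl, rfl⟩

end

/-- PACKET INV0 -/
theorem goalINV0 (hISO : Pool.Agent.Helper26.AL.StmtISO) : Pool.Agent.Helper26.AL.StmtINV0 := by
  intro V W _ _ _ _ e G
  refine ⟨⟨?_, ?_⟩, fun R => ⟨?_, ?_⟩, ?_, ?_, ?_, ?_⟩
  · intro h Q hQ
    obtain ⟨Q', rfl⟩ := exists_map e Q
    have := h Q' ((isComp_comap e G Q').2 hQ)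
    rw [eIn_comap] at this
    rwa [card_map]
  · intro h Q hQ
    have := h _ ((isComp_comap e G Q).1 hQ)
    rw [card_map] at this
    rwa [eIn_comap]
  · intro h Q hQ
    obtain ⟨Q', rfl⟩ := exists_map e Q
    have := h Q' ((isComp_comap e G Q').2 hQ)
    rw [eIn_comap] at this
    rwa [card_map]
  · intro h Q hQ
    have := h _ ((isComp_comap e G Q).1 hQ)
    rw [card_map] at this
    rwa [eIn_comap]
  · exact Nat.card_congr (ph e G).connectedComponentEquiv
  · exact Nat.card_congr (ph e G).mapEdgeSet
  · intro w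
    exact Nat.card_congr ((ph e G).mapNeighborSet w)
  · intro g
    have := hISO V W e.toEmbedding (G.comap e) g
    rw [map_comap_equiv] at this
    exact this.symm

end Pool.Agent.Helper96.AL
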