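import Pool.Agent.Helper26.AL.GoalsB
import Pool.Agent.Helper34.AF.PAU

/-!
# Project AL (MP_af6c86_pr), packet PAV: graphs with given degrees, all components complex, and pairings
-/

set_option autoImplicit false

namespace Pool.Agent.Helper96.AL

open Finset Pool.Agent.Helper26.AF Pool.Agent.Helper26.AL Pool.Agent.Helper34.AF

section Hand

variable {s : ℕ} (G : SimpleGraph (Fin s)) (Q : Finset (Fin s))

/-- the edges inside `Q` -/
def insG : SimpleGraph (Fin s) where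
  Adj x y := G.Adj x y ∧ x ∈ Q ∧ y ∈ Q
  symm := ⟨fun _ _ h => ⟨h.1.symm, h.2.2, h.2.1⟩⟩
  loopless := ⟨fun _ h => h.1.ne rfl⟩

theorem ne_insG : ne (insG G Q) = eIn G Q := by
  unfold ne eIn
  refine Nat.card_congr (Equiv.subtypeEquivRight fun e => ?_)
  induction e with
  | _ a b =>
    change (G.Adj a b ∧ a ∈ Q ∧ b ∈ Q) ↔ (G.Adj a b ∧ ∀ v ∈ s(a, b), v ∈ Q)
    refine and_congr_right fun _ => ?_
    constructor
    · rintro ⟨h1, h2⟩ v hv
      rcases Sym2.mem_iff.1 hv with rfl | rfl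
      · exact h1
      · exact h2
    · intro h
      exact ⟨h a (Sym2.mem_mk_left _ _), h b (Sym2.mem_mk_right _ _)⟩

variable {Q}

theorem dg_insG (hQ : ∀ x y, G.Adj x y → x ∈ Q → y ∈ Q) (v : Fin s) :
    dg (insG G Q) v = if v ∈ Q then dg G v else 0 := by
  split_ifs with h
  · unfold dg
    congr 1
    have : (insG G Q).neighborSet v = G.neighborSet v := by
      ext w
      change (G.Adj v w ∧ v ∈ Q ∧ w ∈ Q) ↔ G.Adj v w
      exact ⟨fun h => h.1, fun h' => ⟨h', h, hQ v w h' h⟩⟩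
    rw [this]
  · unfold dg
    have : IsEmpty ((insG G Q).neighborSet v) := ⟨fun w => h w.2.2.1⟩
    exact Nat.card_of_isEmpty

/-- handshake lemma for a closed set -/
theorem handshake_closed (hQ : ∀ x y, G.Adj x y → x ∈ Q → y ∈ Q) :
    ∑ v ∈ Q, dg G v = 2 * eIn G Q := by
  rw [← ne_insG, ← handshake, Finset.sum_congr rfl (fun v _ => dg_insG G hQ v), Finset.sum_ite_mem,
    Finset.univ_inter]

end Hand

section

variable {s : ℕ} {d : Fin s → ℕ}

theorem tau_noPure' (Γ : SimpleGraph (Fin s)) (lab : ∀ v : Fin s, Fin (d v) ≃ Γ.neighborSet v)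
    (hc : CXG Γ) (hd : ∀ v, dg Γ v = d v) : NoPure (tau Γ lab) := by
  classical
  intro C hC
  by_contra hcon
  push Not at hcon
  have hnb : ∀ v : Fin s, (∃ w ∈ C, w.1 = v) → ∀ u, Γ.Adj v u → ∃ w ∈ C, w.1 = u := by
    rintro v ⟨w, hw, rfl⟩ u hu
    have hx : ∃ b : Bool, ff d (Sum.inr (w, b)) = ⟨w.1, (lab w.1).symm ⟨u, hu⟩⟩ := by
      obtain ⟨x, hx⟩ := (ff_bij d).2 ⟨w.1, (lab w.1).symm ⟨u, hu⟩⟩
      rcases x with ⟨⟨v', hv'⟩, i⟩ | ⟨⟨v', hv'⟩, b⟩
      · have := congrArg Sigma.fst hx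
        change v' = w.1 at this
        rw [this] at hv'
        exact absurd w.2 hv'
      · have := congrArg Sigma.fst hx
        change v' = w.1 at this
        refine ⟨b, ?_⟩
        rw [← hx]
        congr 3
        exact Subtype.ext this.symm
    obtain ⟨b, hb⟩ := hx
    obtain ⟨w', hw', b', hb'⟩ := hcon w hw b
    refine ⟨w', hw', ?_⟩
    have h1 := FF_tau Γ lab (Sum.inr (w, b))
    rw [hb'] at h1
    have h2 := congrArg Sigma.fst h1
    rw [FF_inr] at h2
    rw [h2]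
    have h3 : FF d (Sum.inr (w, b)) = ⟨w.1, (lab w.1).symm ⟨u, hu⟩⟩ := hb
    rw [h3]
    change (lab w.1 ((lab w.1).symm ⟨u, hu⟩)).1 = u
    rw [Equiv.apply_symm_apply]
  obtain ⟨w0, hw0⟩ := hC
  set c := Γ.connectedComponentMk w0.1 with hcdef
  set Q : Finset (Fin s) := univ.filter (fun v => v ∈ c.supp) with hQdef
  have hmem : ∀ v, v ∈ Q ↔ Γ.Reachable v w0.1 := by
    intro v
    rw [hQdef, mem_filter, hcdef, SimpleGraph.ConnectedComponent.mem_supp_iff,
      SimpleGraph.ConnectedComponent.eq]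
    exact ⟨fun h => h.2, fun h => ⟨mem_univ _, h⟩⟩
  have hcomp : IsComp Γ Q := by
    refine ⟨c, ?_⟩
    ext v
    rw [hQdef]
    simp
  have hcl : ∀ x y, Γ.Adj x y → x ∈ Q → y ∈ Q := by
    intro x y hxy hx
    rw [hmem] at hx ⊢
    exact hxy.symm.reachable.trans hx
  have hall : ∀ u ∈ Q, ∃ w ∈ C, w.1 = u := by
    intro u hu
    rw [hmem] at hu
    obtain ⟨p⟩ := hu.symm
    have : ∀ (a b : Fin s) (p : Γ.Walk a b), (∃ w ∈ C, w.1 = a) → ∃ w ∈ C, w.1 = b := by
      intro a b p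
      induction p with
      | nil => exact id
      | cons h _ ih => exact fun ha => ih (hnb _ ha _ h)
    exact this _ _ p ⟨w0, hw0, rfl⟩
  have h1 := handshake_closed Γ hcl
  have h2 : ∑ v ∈ Q, dg Γ v = 2 * #Q := by
    rw [Finset.sum_const_nat (m := 2), mul_comm]
    intro v hv
    obtain ⟨w, _, rfl⟩ := hall v hv
    rw [hd]
    exact w.2
  have h3 := hc Q hcomp
  omega

end

/-- PACKET PAV -/
theorem goalPAV : Pool.Agent.Helper26.AL.StmtPAV := by
  classical
  intro s r d _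
  set GG := {Γ : SimpleGraph (Fin s) // CXG Γ ∧ (∀ v, dg Γ v = d v) ∧ ne Γ = s + r} with hGG
  have hcard : Nat.card (Σ Γ : GG, ∀ v : Fin s, Fin (d v) ≃ Γ.1.neighborSet v)
      = Nat.card GG * ∏ v, (d v).factorial := by
    have h1 : ∀ Γ : GG, Nat.card (∀ v : Fin s, Fin (d v) ≃ Γ.1.neighborSet v)
        = ∏ v, (d v).factorial := by
      intro Γ
      rw [Nat.card_pi]
      apply Finset.prod_congr rfl
      intro v _
      have h2 : Nat.card (Γ.1.neighborSet v) = d v := Γ.2.2.1 v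
      have e : Fin (d v) ≃ Γ.1.neighborSet v := (Finite.equivFinOfCardEq h2).symm
      rw [Nat.card_eq_fintype_card, Fintype.card_equiv e, Fintype.card_fin]
    have : Fintype GG := Fintype.ofFinite _
    rw [Nat.card_sigma, Finset.sum_congr rfl (fun Γ _ => h1 Γ)]
    simp
  rw [← hcard]
  refine Nat.card_le_card_of_injective
    (fun x : (Σ Γ : GG, ∀ v : Fin s, Fin (d v) ≃ Γ.1.neighborSet v) =>
      (⟨tau x.1.1 x.2, tau_pair x.1.1 x.2,
        tau_noPure' x.1.1 x.2 x.1.2.1 x.1.2.2.1⟩ :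
        {τ : Equiv.Perm ((Σ v : {v : Fin s // d v ≠ 2}, Fin (d v.1)) ⊕
          {v : Fin s // d v = 2} × Bool) // IsPair τ ∧ NoPure τ})) ?_
  rintro ⟨⟨Γ, hΓ⟩, lab⟩ ⟨⟨Γ', hΓ'⟩, lab'⟩ h
  have h1 : tau Γ lab = tau Γ' lab' := congrArg Subtype.val h
  have h2 : ∀ x, tau0 Γ lab x = tau0 Γ' lab' x := by
    intro x
    obtain ⟨y, rfl⟩ := (FF d).surjective x
    rw [← FF_tau, ← FF_tau, h1]
  have h3 : ∀ v i, (lab v i).1 = (lab' v i).1 := fun v i => congrArg Sigma.fst (h2 ⟨v, i⟩)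
  have h4 : Γ = Γ' := by
    ext v w
    constructor
    · intro hvw
      have h5 := h3 v ((lab v).symm ⟨w, hvw⟩)
      rw [Equiv.apply_symm_apply] at h5
      change w = _ at h5
      rw [h5]
      exact (lab' v ((lab v).symm ⟨w, hvw⟩)).2
    · intro hvw
      have h5 := h3 v ((lab' v).symm ⟨w, hvw⟩)
      rw [Equiv.apply_symm_apply] at h5
      change _ = w at h5
      rw [← h5]
      exact (lab v ((lab' v).symm ⟨w, hvw⟩)).2
  subst h4
  have h5 : lab = lab' := by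
    funext v
    apply Equiv.ext
    intro i
    exact Subtype.ext (h3 v i)
  rw [h5]

end Pool.Agent.Helper96.AL
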